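import Mathlib
import Pool.Agent.H.MP_4155d9_nt.A

namespace Pool.Agent.Results.MP_4155d9_nt.Family

open Filter Topology

/-- number of partitions of `n` into the (coloured) parts `a 0, ..., a (k-1)` -/
noncomputable def p (a : ℕ → ℕ) (n k : ℕ) : ℕ :=
  Set.ncard {x : Fin k → ℕ | ∑ i : Fin k, x i * a i = n}

def Fam : Set (ℕ → ℕ) :=
  {a | a 0 = 1 ∧ ∃ t : ℕ, (∃ m, Odd m ∧ a 1 = 2 ^ t * m) ∧
    ∀ i, ∃ m, Odd m ∧ a (i + 2) = 2 ^ (t + i) * m}

theorem result : {a | a ∈ Fam ∧ StrictMono a}.Infinite ∧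
    ∀ a ∈ Fam, (∀ i, 0 < a i) ∧ (∀ d : ℕ, (∀ i, d ∣ a i) → d = 1) ∧
      ∃ δ : ℕ → ℝ,
        (∀ k, 1 ≤ k → Tendsto (fun N : ℕ =>
          (((Finset.range (N + 1)).filter (fun n => Odd (p a n k))).card : ℝ) / N)
            atTop (𝓝 (δ k))) ∧
        (∀ k, 2 ≤ k → δ k = 1 / 2) ∧ Tendsto δ atTop (𝓝 (1 / 2)) := by
  constructor
  · refine Set.infinite_of_injective_forall_mem
      (f := fun c : ℕ => fun i : ℕ => if i = 0 then 1 else if i = 1 then 3 else
        2 ^ (i - 2) * (2 * c + 5)) ?_ ?_
    · intro c d h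
      have := congrFun h 2
      simp at this
      exact this
    · intro c
      refine ⟨⟨by simp, 0, ⟨3, by decide, by simp⟩, fun i => ⟨2 * c + 5, ⟨c + 2, by ring⟩, ?_⟩⟩, ?_⟩
      · simp
      · refine strictMono_nat_of_lt_succ fun i => ?_
        match i with
        | 0 => simp
        | 1 => simp
        | (i + 2) =>
          have : 0 < 2 ^ i * (2 * c + 5) := by positivity
          simp only [Nat.succ_ne_zero, if_false, show i + 2 ≠ 1 by omega, show i + 2 + 1 ≠ 1 by omega,
            Nat.add_sub_cancel, show i + 2 + 1 - 2 = i + 1 by omega, pow_succ]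
          nlinarith
  · rintro a ⟨h0, t, h1, h2⟩
    have ha : ∀ i, 0 < a i := by
      intro i
      match i with
      | 0 => omega
      | 1 =>
        obtain ⟨m, hm, e⟩ := h1
        rw [e]; exact Nat.mul_pos (by positivity) hm.pos
      | (i + 2) =>
        obtain ⟨m, hm, e⟩ := h2 i
        rw [e]; exact Nat.mul_pos (by positivity) hm.pos
    refine ⟨ha, fun d hd => Nat.dvd_one.1 (h0 ▸ hd 0), fun k => if k = 1 then 1 else 1 / 2,
      ?_, ?_, ?_⟩
    · intro k hk
      by_cases hk1 : k = 1
      · subst hk1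
        have : ∀ n, p a n 1 = 1 := fun n => H.MP_4155d9_nt.one_part a h0 n
        simp only [this, odd_one, Finset.filter_true, Finset.card_range, if_true]
        have h3 := (tendsto_const_div_atTop_nhds_zero_nat (1 : ℝ)).const_add 1
        rw [add_zero] at h3
        refine h3.congr' ?_
        filter_upwards [eventually_gt_atTop 0] with N hN
        have hN' : (N : ℝ) ≠ 0 := by positivity
        push_cast
        field_simp
      · obtain ⟨s, rfl⟩ : ∃ s, k = s + 2 := ⟨k - 2, by omega⟩
        obtain ⟨T, hT⟩ := H.MP_4155d9_nt.anti a ha h0 t h1 h2 s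
        simp only [hk1, if_false]
        exact H.MP_4155d9_nt.dens (fun n => Odd (p a n (s + 2))) T hT
    · intro k hk
      simp only [show k ≠ 1 by omega, if_false]
    · refine tendsto_const_nhds.congr' ?_
      filter_upwards [eventually_gt_atTop 1] with k hk
      simp only [hk.ne', if_false]

end Pool.Agent.Results.MP_4155d9_nt.Family
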